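import Mathlib

set_option autoImplicit false
set_option maxSynthPendingDepth 3

namespace Pool.Agent.Results.MP_bbb74b_al.Lamp
open FreeGroup hiding map_mul map_inv map_one

/-- positive: in the submonoid generated by the free generators -/
def Positive {X : Type} (w : FreeGroup X) : Prop :=
  w ∈ Submonoid.closure (Set.range (FreeGroup.of : X → FreeGroup X))

/-- some generator occurs in the reduced form, and its inverse does not -/
def PPos {X : Type} [DecidableEq X] (w : FreeGroup X) : Prop :=
  ∃ a : X, (a, true) ∈ w.toWord ∧ (a, false) ∉ w.toWord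

section
variable {X : Type} [DecidableEq X]

abbrev W (X : Type) (m : ℕ) :=
  RegularWreathProduct (Multiplicative (X → ZMod 2)) (Multiplicative (ZMod m))

def gen (m : ℕ) (i : X) : W X m :=
  ⟨fun q => if q = 1 then Multiplicative.ofAdd (Pi.single i 1) else 1, Multiplicative.ofAdd 1⟩

def Phi (m : ℕ) : FreeGroup X →* W X m := FreeGroup.lift (gen m)

def E : FreeGroup X →* Multiplicative ℤ := FreeGroup.lift fun _ => Multiplicative.ofAdd 1

omit [DecidableEq X] in
lemma E_list (L : List X) : E (L.map FreeGroup.of).prod = Multiplicative.ofAdd (L.length : ℤ) := by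
  induction L with
  | nil => simp
  | cons a L ih =>
    rw [List.map_cons, List.prod_cons, map_mul, ih]
    simp only [E, lift_apply_of, List.length_cons]
    rw [← ofAdd_add]; congr 1; push_cast; ring

lemma Phi_right (m : ℕ) (g : FreeGroup X) :
    (Phi m g).right = Multiplicative.ofAdd (((E g).toAdd : ℤ) : ZMod m) := by
  induction g using FreeGroup.induction_on with
  | C1 => simp
  | of x => simp [Phi, E, gen]
  | inv_of x ih => rw [map_inv, map_inv, RegularWreathProduct.inv_right, ih]; simp
  | mul x y hx hy => rw [map_mul, map_mul, RegularWreathProduct.mul_right, hx, hy]; simp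

omit [DecidableEq X] in
lemma sq_one (m : ℕ) (g : W X m) (h : g.right = 1) : g * g = 1 := by
  apply RegularWreathProduct.ext
  · funext x
    simp only [RegularWreathProduct.mul_left, h, inv_one, one_mul, Pi.mul_apply,
      RegularWreathProduct.one_left, Pi.one_apply]
    apply Multiplicative.toAdd.injective
    funext j
    simp only [toAdd_mul, Pi.add_apply, toAdd_one, Pi.zero_apply]
    exact CharTwo.add_self_eq_zero _
  · simp [h]

lemma Phi_left (m : ℕ) (d : X) (L : List X) (x : ZMod m) :
    ((Phi m (L.map FreeGroup.of).prod).left (Multiplicative.ofAdd x)).toAdd =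
      ∑ p ∈ Finset.range L.length,
        if (p : ZMod m) = x then (Pi.single (L.getD p d) 1 : X → ZMod 2) else 0 := by
  induction L generalizing x with
  | nil => simp
  | cons a L ih =>
    rw [List.map_cons, List.prod_cons, map_mul, RegularWreathProduct.mul_left, Pi.mul_apply,
      toAdd_mul, List.length_cons, Finset.sum_range_succ']
    have h1 : (Phi m (FreeGroup.of a)) = gen m a := by simp [Phi]
    have h2 : ((gen m a).right)⁻¹ * Multiplicative.ofAdd x = Multiplicative.ofAdd (x - 1) := by
      simp only [gen]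
      rw [← ofAdd_neg, ← ofAdd_add]; congr 1; ring
    rw [h1, h2, ih, add_comm]
    congr 1
    · refine Finset.sum_congr rfl fun p _ => ?_
      have : ((p : ZMod m) = x - 1) ↔ (((p + 1 : ℕ) : ZMod m) = x) := by
        push_cast; exact eq_sub_iff_add_eq
      simp only [this, List.getD_cons_succ]
    · simp only [gen, List.getD_cons_zero, Nat.cast_zero]
      by_cases hx : x = 0
      · subst hx; simp
      · rw [if_neg (by simpa using hx), if_neg (Ne.symm hx)]; simp

lemma Phi_at (m : ℕ) (d : X) (L : List X) (hL : L.length = m) (p : ℕ) (hp : p < m) :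
    ((Phi m (L.map FreeGroup.of).prod).left (Multiplicative.ofAdd (p : ZMod m))).toAdd =
      Pi.single (L.getD p d) 1 := by
  rw [Phi_left m d, Finset.sum_eq_single p]
  · simp
  · intro q hq hqp
    rw [if_neg]
    intro h
    rw [ZMod.natCast_eq_natCast_iff', Nat.mod_eq_of_lt hp,
      Nat.mod_eq_of_lt (by simpa [hL] using hq)] at h
    exact hqp h
  · intro h; exact absurd (by simpa [hL] using hp) h

/-- a positive word of the shape `a² t²` with `t` of total exponent zero is a square -/
lemma key (d : X) (a t : FreeGroup X) (ht : E t = 1) (h : Positive (a * a * (t * t))) :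
    ∃ u, a * a * (t * t) = u * u := by
  obtain ⟨l, hl, hprod⟩ := Submonoid.exists_list_of_mem_closure h
  have : ∃ L : List X, l = L.map FreeGroup.of := by
    clear hprod h
    induction l with
    | nil => exact ⟨[], rfl⟩
    | cons y l ih =>
      obtain ⟨L, rfl⟩ := ih fun z hz => hl z (List.mem_cons_of_mem _ hz)
      obtain ⟨i, rfl⟩ := hl y List.mem_cons_self
      exact ⟨i :: L, rfl⟩
  obtain ⟨L, rfl⟩ := this
  have h1 := E_list L
  rw [hprod, map_mul, map_mul, map_mul, ht] at h1
  have h2 : (E a).toAdd + (E a).toAdd = L.length := by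
    have := congrArg Multiplicative.toAdd h1
    simpa using this
  obtain ⟨m, hm⟩ : ∃ m : ℕ, (E a).toAdd = m := ⟨(E a).toAdd.toNat, by omega⟩
  have hlen : L.length = m + m := by omega
  have ha : Phi m a * Phi m a = 1 := sq_one m _ (by rw [Phi_right, hm]; simp)
  have ht' : Phi m t * Phi m t = 1 := sq_one m _ (by rw [Phi_right, ht]; simp)
  have h3 : Phi m (L.map FreeGroup.of).prod = 1 := by
    rw [hprod, map_mul, map_mul, map_mul, ha, ht', one_mul]
  have hs : L = L.take m ++ L.drop m := (List.take_append_drop m L).symm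
  have l1 : (L.take m).length = m := by simp [hlen]
  have l2 : (L.drop m).length = m := by simp [hlen]
  generalize L.take m = L1 at hs l1
  generalize L.drop m = L2 at hs l2
  subst hs
  rw [List.map_append, List.prod_append] at h3 hprod
  rw [map_mul] at h3
  have h4 : Phi m (L1.map FreeGroup.of).prod * Phi m (L1.map FreeGroup.of).prod = 1 :=
    sq_one m _ (by rw [Phi_right, E_list, l1]; simp)
  have h5 : Phi m (L1.map FreeGroup.of).prod = Phi m (L2.map FreeGroup.of).prod :=
    mul_left_cancel (h4.trans h3.symm)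
  have h6 : L1 = L2 := by
    apply List.ext_getElem (l1.trans l2.symm)
    intro p hp1 hp2
    have e1 := Phi_at m d L1 l1 p (l1 ▸ hp1)
    rw [h5, Phi_at m d L2 l2 p (l1 ▸ hp1), List.getD_eq_getElem _ _ hp1,
      List.getD_eq_getElem _ _ hp2] at e1
    by_contra hne
    have := congrFun e1 L1[p]
    rw [Pi.single_eq_same, Pi.single_eq_of_ne hne] at this
    exact absurd this (by decide)
  subst h6
  exact ⟨_, hprod.symm⟩

end

abbrev SL := Matrix.SpecialLinearGroup (Fin 2) ℤ

def mB : SL := ⟨!![1, 1; 0, 1], by simp [Matrix.det_fin_two]⟩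
def mC : SL := ⟨!![1, 0; 1, 1], by simp [Matrix.det_fin_two]⟩

lemma nonsq (v : SL) : mB * mB * (mB * mC * mB⁻¹ * mC⁻¹ * (mB * mC * mB⁻¹ * mC⁻¹)) ≠ v * v := by
  intro h
  have hd := v.det_coe
  rw [Matrix.det_fin_two] at hd
  have h0 := congrArg (fun z : SL => z.1 0 0 + z.1 1 1) h
  simp [mB, mC, Matrix.SpecialLinearGroup.coe_mul, Matrix.SpecialLinearGroup.coe_inv,
    Matrix.adjugate_fin_two, Matrix.mul_apply, Fin.sum_univ_two] at h0
  have h1 : (v.1 0 0 + v.1 1 1) ^ 2 = 15 := by nlinarith
  generalize v.1 0 0 + v.1 1 1 = z at h1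
  have : z ≤ 4 := by nlinarith
  have : -4 ≤ z := by nlinarith
  interval_cases z <;> omega

theorem result (r : ℕ) (hr : 3 ≤ r) :
    ∃ w : FreeGroup (Fin r), PPos w ∧ ∀ φ : MulAut (FreeGroup (Fin r)), ¬ Positive (φ w) := by
  obtain ⟨n, rfl⟩ : ∃ n, r = n + 3 := ⟨r - 3, by omega⟩
  let a : Fin (n + 3) := ⟨0, by omega⟩
  let b : Fin (n + 3) := ⟨1, by omega⟩
  let c : Fin (n + 3) := ⟨2, by omega⟩
  have ab : a ≠ b := by simp [a, b]
  have ac : a ≠ c := by simp [a, c]
  have bc : b ≠ c := by simp [b, c]
  let t : FreeGroup (Fin (n + 3)) := of b * of c * (of b)⁻¹ * (of c)⁻¹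
  refine ⟨of a * of a * (t * t), ⟨a, ?_⟩, ?_⟩
  · have hw : of a * of a * (t * t) = FreeGroup.mk [(a, true), (a, true), (b, true), (c, true),
        (b, false), (c, false), (b, true), (c, true), (b, false), (c, false)] := by
      simp only [t, FreeGroup.of, FreeGroup.inv_mk, FreeGroup.mul_mk]
      rfl
    rw [hw, toWord_mk, FreeGroup.IsReduced.reduce_eq]
    · simp [ab, ac]
    · simp [FreeGroup.IsReduced, ab, bc, bc.symm]
  · intro φ hφ
    simp only [map_mul φ (of a * of a), map_mul φ (of a), map_mul φ t] at hφ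
    obtain ⟨u, hu⟩ := key a _ _ (by simp [t]) hφ
    have h1 : of a * of a * (t * t) = φ.symm u * φ.symm u := by
      rw [← map_mul, ← hu]; simp
    have h2 := congrArg (FreeGroup.lift fun i => if i = c then mC else mB) h1
    simp only [t, map_mul, map_inv, lift_apply_of, if_neg ac, if_neg bc, if_true] at h2
    exact nonsq _ h2

end Pool.Agent.Results.MP_bbb74b_al.Lamp
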